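import Mathlib

set_option autoImplicit false

namespace Pool.Agent.Work.MP_59a37c_gt

open Filter Topology Set

universe u

/-- The free Abelian group on `X`: finitely supported functions `X → ℤ`. -/
def FA (X : Type u) : Type u := X →₀ ℤ

noncomputable instance (X : Type u) : AddCommGroup (FA X) := inferInstanceAs (AddCommGroup (X →₀ ℤ))

namespace FA

/-- The canonical map of `X` into the free Abelian group: `x` goes to the basis vector of `x`. -/
noncomputable def of {X : Type u} (x : X) : FA X := (Finsupp.single x (1 : ℤ) : X →₀ ℤ)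

/-- The length `∑ |n_i|` of an element `∑ n_i x_i`. -/
noncomputable def length {X : Type u} (g : FA X) : ℕ := Finsupp.sum (g : X →₀ ℤ) fun _ n => n.natAbs

/-- The topology of the free Abelian topological group `A(X)`: the finest group topology on the
free Abelian group for which the canonical map of `X` is continuous. -/
instance (X : Type u) [TopologicalSpace X] : TopologicalSpace (FA X) :=
  sInf {t | @IsTopologicalAddGroup (FA X) t _ ∧ @Continuous X (FA X) _ t of}

/-- The subspace `A_n(X)` of the elements of length at most `n`. -/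
abbrev Level (X : Type u) (n : ℕ) : Type u := {g : FA X // length g ≤ n}

end FA

/-- `P` is a sequential neighbourhood of `y`: it contains `y` and every sequence
converging to `y` lies in `P` from some index on. -/
def IsSeqNhd {Y : Type u} [TopologicalSpace Y] (P : Set Y) (y : Y) : Prop :=
  y ∈ P ∧ ∀ s : ℕ → Y, Tendsto s atTop (𝓝 y) → ∀ᶠ n in atTop, s n ∈ P

/-- `F` is an sn-network at `y`. -/
def IsSnNetworkAt {Y : Type u} [TopologicalSpace Y] (F : Set (Set Y)) (y : Y) : Prop :=
  (∀ P ∈ F, IsSeqNhd P y) ∧ (∀ U : Set Y, IsOpen U → y ∈ U → ∃ P ∈ F, P ⊆ U) ∧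
    ∀ P₁ ∈ F, ∀ P₂ ∈ F, ∃ P ∈ F, P ⊆ P₁ ∩ P₂

/-- `Y` is snf-countable: every point has a countable sn-network. -/
def SnfCountable (Y : Type u) [TopologicalSpace Y] : Prop :=
  ∀ y : Y, ∃ F : Set (Set Y), F.Countable ∧ IsSnNetworkAt F y

/-- `X` is a k-space. -/
def IsKSpace (X : Type u) [TopologicalSpace X] : Prop :=
  ∀ F : Set X, (∀ K : Set X, IsCompact K → IsClosed ((↑) ⁻¹' F : Set K)) → IsClosed F

/-- `X` has a regular `G_δ`-diagonal. -/
def HasRegularGdeltaDiagonal (X : Type u) [TopologicalSpace X] : Prop :=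
  ∃ U : ℕ → Set (X × X), (∀ m, IsOpen (U m) ∧ diagonal X ⊆ U m) ∧
    ⋂ m, closure (U m) = diagonal X

end Pool.Agent.Work.MP_59a37c_gt
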