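import Mathlib
import Pool.Agent.Work.MP_59a37c_gt.Defs

set_option autoImplicit false

namespace Pool.Agent.Work.MP_59a37c_gt

open Filter Topology Set

universe u v

namespace FA

set_option linter.unusedSectionVars false

variable {X : Type u} [TopologicalSpace X]

instance : IsTopologicalAddGroup (FA X) :=
  topologicalAddGroup_sInf fun _ ht => ht.1

theorem continuous_of : Continuous (of : X → FA X) :=
  continuous_sInf_rng.2 fun _ ht => ht.2

/-- The homomorphism extending `F`. -/
noncomputable def lift {G : Type v} [AddCommGroup G] (F : X → G) : FA X →+ G :=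
  (Finsupp.liftAddHom fun x => (zmultiplesHom G (F x)) : (X →₀ ℤ) →+ G)

theorem lift_of {G : Type v} [AddCommGroup G] (F : X → G) (x : X) : lift F (of x) = F x := by
  unfold lift of
  change (Finsupp.liftAddHom fun x => (zmultiplesHom G (F x)) : (X →₀ ℤ) →+ G)
    (Finsupp.single x 1) = F x
  rw [Finsupp.liftAddHom_apply_single]
  simp

theorem continuous_lift {G : Type v} [AddCommGroup G] [TopologicalSpace G]
    [IsTopologicalAddGroup G] {F : X → G} (hF : Continuous F) : Continuous (lift F) := by
  rw [continuous_iff_le_induced]
  apply sInf_le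
  refine ⟨topologicalAddGroup_induced (lift F), ?_⟩
  rw [continuous_induced_rng]
  have : (lift F : FA X → G) ∘ of = F := by
    ext x
    exact lift_of F x
  rwa [this]

/-- The difference of two points. -/
noncomputable def d (x y : X) : FA X := of x - of y

theorem continuous_d : Continuous (fun p : X × X => d p.1 p.2) := by
  unfold d
  exact (continuous_of.comp continuous_fst).sub (continuous_of.comp continuous_snd)

theorem d_self (x : X) : d x x = 0 := sub_self _

theorem lift_d {G : Type v} [AddCommGroup G] (F : X → G) (x y : X) :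
    lift F (d x y) = F x - F y := by
  rw [d, map_sub, lift_of, lift_of]

theorem length_of (x : X) : length (of x) = 1 := by
  unfold length of
  rw [Finsupp.sum_single_index] <;> simp

theorem length_add_le (g h : FA X) : length (g + h) ≤ length g + length h := by
  classical
  unfold length
  set g' : X →₀ ℤ := g
  set h' : X →₀ ℤ := h
  change (g' + h').sum (fun _ n => n.natAbs) ≤ _
  rw [Finsupp.sum_of_support_subset (s := g'.support ∪ h'.support) _ Finsupp.support_add _
      (by simp),
    Finsupp.sum_of_support_subset (s := g'.support ∪ h'.support) g' Finset.subset_union_left _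
      (by simp),
    Finsupp.sum_of_support_subset (s := g'.support ∪ h'.support) h' Finset.subset_union_right _
      (by simp), ← Finset.sum_add_distrib]
  refine Finset.sum_le_sum fun x _ => ?_
  exact Int.natAbs_add_le _ _

theorem length_neg (g : FA X) : length (-g) = length g := by
  unfold length
  set g' : X →₀ ℤ := g
  change (-g').sum (fun _ n => n.natAbs) = g'.sum (fun _ n => n.natAbs)
  rw [Finsupp.sum_neg_index] <;> simp

theorem length_sub_le (g h : FA X) : length (g - h) ≤ length g + length h := by
  rw [sub_eq_add_neg]
  exact (length_add_le _ _).trans (by rw [length_neg])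

theorem length_d_le (x y : X) : length (d x y) ≤ 2 :=
  (length_sub_le _ _).trans (by rw [length_of, length_of])

/-- The degree homomorphism is continuous. -/
noncomputable def deg : FA X →+ ℤ := lift fun _ => (1 : ℤ)

theorem continuous_deg : Continuous (deg : FA X → ℤ) := continuous_lift continuous_const

theorem deg_of (x : X) : deg (of x) = 1 := lift_of _ _

/-- Length of a finitely supported function. -/
def len (g : X →₀ ℤ) : ℕ := g.sum fun _ n => n.natAbs

theorem deg_eq (g : X →₀ ℤ) : deg (g : FA X) = g.sum fun _ n => n := by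
  unfold deg lift
  change (Finsupp.liftAddHom fun x => (zmultiplesHom ℤ (1 : ℤ)) : (X →₀ ℤ) →+ ℤ) g = _
  rw [Finsupp.liftAddHom_apply]
  refine Finset.sum_congr rfl fun x _ => ?_
  simp

theorem len_sub_single (g : X →₀ ℤ) (x : X) (hx : 0 < g x) :
    len (g - Finsupp.single x 1) + 1 = len g := by
  classical
  unfold len
  have e1 := Finsupp.add_sum_erase' g x (fun _ (n : ℤ) => n.natAbs) (by simp)
  have e2 := Finsupp.add_sum_erase' (g - Finsupp.single x 1) x (fun _ (n : ℤ) => n.natAbs)
    (by simp)
  have h1 : (g - Finsupp.single x 1).erase x = g.erase x := by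
    ext z
    by_cases hz : z = x
    · subst hz; simp
    · simp [Finsupp.erase_ne hz]
  rw [h1] at e2
  rw [← e1, ← e2]
  simp only [Finsupp.coe_sub, Pi.sub_apply, Finsupp.single_eq_same]
  omega

theorem len_add_single (g : X →₀ ℤ) (x : X) (hx : g x < 0) :
    len (g + Finsupp.single x 1) + 1 = len g := by
  classical
  unfold len
  have e1 := Finsupp.add_sum_erase' g x (fun _ (n : ℤ) => n.natAbs) (by simp)
  have e2 := Finsupp.add_sum_erase' (g + Finsupp.single x 1) x (fun _ (n : ℤ) => n.natAbs)
    (by simp)
  have h1 : (g + Finsupp.single x 1).erase x = g.erase x := by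
    ext z
    by_cases hz : z = x
    · subst hz; simp
    · simp [Finsupp.erase_ne hz]
  rw [h1] at e2
  rw [← e1, ← e2]
  simp only [Finsupp.coe_add, Pi.add_apply, Finsupp.single_eq_same]
  omega

theorem eq_zero_of_len (g : X →₀ ℤ) (h : len g = 0) : g = 0 := by
  classical
  by_contra hg
  have hne : g.support.Nonempty := Finsupp.support_nonempty_iff.2 hg
  obtain ⟨x, hx⟩ := hne
  unfold len at h
  rw [Finsupp.sum, Finset.sum_eq_zero_iff] at h
  have := h x hx
  rw [Int.natAbs_eq_zero] at this
  exact (Finsupp.mem_support_iff.1 hx) this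

theorem exists_fin_sum_aux (n : ℕ) (g : X →₀ ℤ) (hdeg : (g.sum fun _ n => n) = 0)
    (hlen : len g ≤ 2 * n) :
    ∃ m ≤ n, ∃ x y : Fin m → X, g = ∑ r, (Finsupp.single (x r) 1 - Finsupp.single (y r) 1) := by
  classical
  induction n generalizing g with
  | zero =>
    refine ⟨0, le_rfl, Fin.elim0, Fin.elim0, ?_⟩
    simp only [Finset.univ_eq_empty, Finset.sum_empty]
    exact eq_zero_of_len g (by omega)
  | succ n ih =>
    by_cases hg : g = 0
    · refine ⟨0, Nat.zero_le _, Fin.elim0, Fin.elim0, ?_⟩
      simpa using hg
    have hne : g.support.Nonempty := Finsupp.support_nonempty_iff.2 hg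
    obtain ⟨x, hxs, hx⟩ : ∃ x ∈ g.support, 0 < g x := by
      by_contra hcon
      push Not at hcon
      have hlt : ∑ z ∈ g.support, g z < 0 := by
        apply Finset.sum_neg
        · intro z hz
          exact lt_of_le_of_ne (hcon z hz) (Finsupp.mem_support_iff.1 hz)
        · exact hne
      rw [Finsupp.sum] at hdeg
      omega
    obtain ⟨y, hys, hy⟩ : ∃ y ∈ g.support, g y < 0 := by
      by_contra hcon
      push Not at hcon
      have hlt : 0 < ∑ z ∈ g.support, g z := by
        apply Finset.sum_pos
        · intro z hz
          exact lt_of_le_of_ne (hcon z hz) (Finsupp.mem_support_iff.1 hz).symm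
        · exact hne
      rw [Finsupp.sum] at hdeg
      omega
    have hxy : x ≠ y := by
      rintro rfl
      omega
    have h1 := len_sub_single g x hx
    have h2 := len_add_single (g - Finsupp.single x 1) y (by
      rw [Finsupp.sub_apply, Finsupp.single_apply, if_neg hxy]
      simpa using hy)
    have hdeg' : ((g - Finsupp.single x 1 + Finsupp.single y 1 : X →₀ ℤ).sum fun _ n => n) = 0 := by
      rw [Finsupp.sum_add_index' (by simp) (by simp), Finsupp.sum_sub_index (by simp), hdeg]
      simp
    obtain ⟨m, hm, a, b, hab⟩ := ih _ hdeg' (by omega)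
    refine ⟨m + 1, by omega, Fin.cons x a, Fin.cons y b, ?_⟩
    rw [Fin.sum_univ_succ]
    simp only [Fin.cons_zero, Fin.cons_succ]
    rw [← hab]
    abel

/-- Elements of degree zero and length at most `2n` are sums of at most `n` differences. -/
theorem exists_fin_sum (n : ℕ) (g : FA X) (hdeg : deg g = 0) (hlen : length g ≤ 2 * n) :
    ∃ m ≤ n, ∃ x y : Fin m → X, g = ∑ r, d (x r) (y r) :=
  exists_fin_sum_aux n g ((deg_eq g).symm.trans hdeg) hlen

end FA

end Pool.Agent.Work.MP_59a37c_gt
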