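import Mathlib
import Pool.Agent.Work.MP_59a37c_gt.Free

set_option autoImplicit false

namespace Pool.Agent.Work.MP_59a37c_gt

open Filter Topology Set

universe u v

set_option linter.unusedSectionVars false

namespace FA

variable {X : Type u} [TopologicalSpace X]

theorem nhds_of_equicontinuous {L : Type v} (f : L → X → ℝ)
    (hf : ∀ x₀ : X, ∀ ε > 0, ∀ᶠ x in 𝓝 x₀, ∀ l, |f l x - f l x₀| < ε) (ε : ℝ) (hε : 0 < ε) :
    {g : FA X | ∀ l, |lift (f l) g| < ε} ∈ 𝓝 (0 : FA X) := by
  let F : X → UniformFun L ℝ := fun x => UniformFun.ofFun (fun l => f l x)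
  have hF : Continuous F := by
    rw [continuous_iff_continuousAt]
    intro x₀
    rw [ContinuousAt, UniformFun.tendsto_iff_tendstoUniformly, Metric.tendstoUniformly_iff]
    intro δ hδ
    filter_upwards [hf x₀ δ hδ] with x hx l
    rw [dist_comm]
    exact hx l
  have hcont : Continuous (lift F) := continuous_lift hF
  have heval : ∀ (g : FA X) (l : L), UniformFun.toFun (lift F g) l = lift (f l) g := by
    intro g l
    let ev : UniformFun L ℝ →+ ℝ :=
      { toFun := fun φ => UniformFun.toFun φ l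
        map_zero' := rfl
        map_add' := fun _ _ => rfl }
    have : ev.comp (lift F) = lift (f l) := by
      apply Finsupp.addHom_ext'
      intro x
      ext
      exact (congrArg ev (lift_of F x)).trans (lift_of (f l) x).symm
    exact DFunLike.congr_fun this g
  have h0 : {φ : UniformFun L ℝ | ∀ l, |UniformFun.toFun φ l| < ε} ∈ 𝓝 (0 : UniformFun L ℝ) := by
    have h := UniformFun.hasBasis_nhds_zero_of_basis (α := L) (Metric.nhds_basis_ball (x := (0 : ℝ)))
    refine h.mem_iff.2 ⟨ε, hε, fun φ hφ l => ?_⟩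
    have := hφ l
    rw [Metric.mem_ball, dist_zero_right] at this
    exact this
  have h1 := hcont.continuousAt (x := 0)
  rw [ContinuousAt, map_zero] at h1
  filter_upwards [h1 h0] with g hg l
  rw [← heval]
  exact hg l

theorem matching {M : Type v} [PseudoMetricSpace M] {m : ℕ} (x y : Fin m → M)
    (h : ∀ φ : M → ℝ, (∀ z, 0 ≤ φ z ∧ φ z ≤ 1) → (∀ z w, |φ z - φ w| ≤ dist z w) →
      |∑ r, (φ (x r) - φ (y r))| < 1) :
    ∃ π : Equiv.Perm (Fin m), ∀ r, dist (x r) (y (π r)) < 1 := by
  classical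
  let t : Fin m → Finset (Fin m) := fun r => Finset.univ.filter fun s => dist (x r) (y s) < 1
  obtain ⟨f, hf, hft⟩ : ∃ f : Fin m → Fin m, Function.Injective f ∧ ∀ r, f r ∈ t r := by
    rw [← Finset.all_card_le_biUnion_card_iff_exists_injective]
    intro R
    by_contra hcard
    rw [not_le] at hcard
    have hne : R.Nonempty := by
      rw [Finset.nonempty_iff_ne_empty]
      rintro rfl
      simp at hcard
    let φ : M → ℝ := fun z => min 1 (R.inf' hne fun r => dist (x r) z)
    have hinf0 : ∀ z, 0 ≤ R.inf' hne fun r => dist (x r) z := by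
      intro z
      rw [Finset.le_inf'_iff]
      exact fun _ _ => dist_nonneg
    have h01 : ∀ z, 0 ≤ φ z ∧ φ z ≤ 1 := fun z =>
      ⟨le_min zero_le_one (hinf0 z), min_le_left _ _⟩
    have hle : ∀ z w, φ z ≤ φ w + dist z w := by
      intro z w
      rw [← min_add_add_right]
      apply le_min
      · exact (min_le_left _ _).trans (by linarith [dist_nonneg (x := z) (y := w)])
      · obtain ⟨r, hr, hrw⟩ := Finset.exists_mem_eq_inf' hne fun r => dist (x r) w
        rw [hrw]
        calc φ z ≤ R.inf' hne fun r => dist (x r) z := min_le_right _ _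
          _ ≤ dist (x r) z := Finset.inf'_le _ hr
          _ ≤ dist (x r) w + dist z w := by
            rw [dist_comm z w]; exact dist_triangle _ _ _
    have hlip : ∀ z w, |φ z - φ w| ≤ dist z w := by
      intro z w
      rw [abs_sub_le_iff]
      constructor
      · linarith [hle z w]
      · have := hle w z
        rw [dist_comm w z] at this
        linarith
    have key := h φ h01 hlip
    have h1 : ∑ r, φ (x r) ≤ ∑ r : Fin m, (if r ∈ R then (0 : ℝ) else 1) := by
      apply Finset.sum_le_sum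
      intro r _
      split_ifs with hr
      · calc φ (x r) ≤ R.inf' hne fun r' => dist (x r') (x r) := min_le_right _ _
          _ ≤ dist (x r) (x r) := Finset.inf'_le (fun r' => dist (x r') (x r)) hr
          _ = 0 := dist_self _
      · exact (h01 _).2
    have h2 : ∑ s : Fin m, (if s ∈ R.biUnion t then (0 : ℝ) else 1) ≤ ∑ s, φ (y s) := by
      apply Finset.sum_le_sum
      intro s _
      split_ifs with hs
      · exact (h01 _).1
      · apply le_min le_rfl
        rw [Finset.le_inf'_iff]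
        intro r hr
        by_contra hlt
        apply hs
        rw [Finset.mem_biUnion]
        exact ⟨r, hr, Finset.mem_filter.2 ⟨Finset.mem_univ _, not_le.1 hlt⟩⟩
    have hcount : ∀ S : Finset (Fin m), ∑ s : Fin m, (if s ∈ S then (0 : ℝ) else 1)
        = m - S.card := by
      intro S
      have : ∀ s : Fin m, (if s ∈ S then (0 : ℝ) else 1) = 1 - (if s ∈ S then 1 else 0) := by
        intro s; split_ifs <;> norm_num
      simp_rw [this]
      rw [Finset.sum_sub_distrib, Finset.sum_ite_mem]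
      simp
    rw [hcount] at h1 h2
    rw [Finset.sum_sub_distrib, abs_lt] at key
    have h3 : ((R.biUnion t).card : ℝ) + 1 ≤ R.card := by exact_mod_cast hcard
    linarith [key.1]
  let π : Equiv.Perm (Fin m) := Equiv.ofBijective f (Finite.injective_iff_bijective.1 hf)
  refine ⟨π, fun r => ?_⟩
  exact (Finset.mem_filter.1 (hft r)).2

/-- Sums of at most `n` differences of pairs in `E`. -/
def B (n : ℕ) (E : Set (X × X)) : Set (FA X) :=
  {g | ∃ m ≤ n, ∃ x y : Fin m → X, (∀ r, (x r, y r) ∈ E) ∧ g = ∑ r, d (x r) (y r)}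

theorem B_nhds (n : ℕ) (ρ : X → X → ℝ) (h0 : ∀ x, ρ x x = 0) (hsymm : ∀ x y, ρ x y = ρ y x)
    (htri : ∀ x y z, ρ x z ≤ ρ x y + ρ y z)
    (hcont : ∀ x₀ : X, ∀ ε > 0, ∀ᶠ x in 𝓝 x₀, ρ x x₀ < ε) :
    ∃ O ∈ 𝓝 (0 : FA X), ∀ g ∈ O, length g ≤ 2 * n → g ∈ B n {p | ρ p.1 p.2 < 1} := by
  let M : PseudoMetricSpace X :=
    { dist := ρ
      dist_self := h0
      dist_comm := hsymm
      dist_triangle := htri }
  let L : Type u := {φ : X → ℝ // (∀ z, 0 ≤ φ z ∧ φ z ≤ 1) ∧ ∀ z w, |φ z - φ w| ≤ ρ z w}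
  have h1 := nhds_of_equicontinuous (X := X) (L := L) (fun l x => l.1 x) (by
    intro x₀ ε hε
    filter_upwards [hcont x₀ ε hε] with x hx l
    exact (l.2.2 _ _).trans_lt hx) 1 one_pos
  have h2 : {g : FA X | deg g = 0} ∈ 𝓝 (0 : FA X) := by
    have := continuous_deg (X := X)
    have h3 : IsOpen {g : FA X | deg g = 0} := (isOpen_discrete ({0} : Set ℤ)).preimage this
    exact h3.mem_nhds (map_zero _)
  refine ⟨_, inter_mem h1 h2, ?_⟩
  rintro g ⟨hg1, hg2⟩ hlen
  obtain ⟨m, hm, x, y, rfl⟩ := exists_fin_sum n g hg2 hlen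
  obtain ⟨π, hπ⟩ := @matching X M m x y (by
    intro φ h01 hlip
    have := hg1 ⟨φ, h01, hlip⟩
    rw [map_sum] at this
    simpa only [lift_d] using this)
  refine ⟨m, hm, x, y ∘ π, hπ, ?_⟩
  simp only [d, Finset.sum_sub_distrib, Function.comp]
  rw [Equiv.sum_comp π (fun r => of (y r))]

theorem exists_small (n : ℕ) : ∀ U ∈ 𝓝 (0 : FA X), ∃ V ∈ 𝓝 (0 : FA X), ∀ m ≤ n,
    ∀ v : Fin m → FA X, (∀ r, v r ∈ V) → ∑ r, v r ∈ U := by
  induction n with
  | zero =>
    intro U hU
    refine ⟨U, hU, fun m hm v _ => ?_⟩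
    obtain rfl : m = 0 := by omega
    simpa using mem_of_mem_nhds hU
  | succ n ih =>
    intro U hU
    obtain ⟨W, hW, hWU⟩ := exists_nhds_zero_half hU
    obtain ⟨V, hV, hVW⟩ := ih W hW
    refine ⟨V ∩ W, inter_mem hV hW, fun m hm v hv => ?_⟩
    cases m with
    | zero => simpa using mem_of_mem_nhds hU
    | succ m =>
      rw [Fin.sum_univ_succ]
      exact hWU _ (hv 0).2 _ (hVW m (by omega) _ fun r => (hv r.succ).1)

theorem B_small (n : ℕ) (U : Set (FA X)) (hU : U ∈ 𝓝 (0 : FA X)) :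
    ∃ V ∈ 𝓝 (0 : FA X), ∀ E : Set (X × X), (∀ p ∈ E, d p.1 p.2 ∈ V) → B n E ⊆ U := by
  obtain ⟨V, hV, h⟩ := exists_small n U hU
  refine ⟨V, hV, fun E hE => ?_⟩
  rintro g ⟨m, hm, x, y, hxy, rfl⟩
  exact h m hm _ fun r => hE _ (hxy r)

end FA

end Pool.Agent.Work.MP_59a37c_gt
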