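import Mathlib
import Pool.Agent.Work.MP_59a37c_gt.Nhds

set_option autoImplicit false

namespace Pool.Agent.Work.MP_59a37c_gt

open Filter Topology Set

universe u v

variable {X : Type u} [TopologicalSpace X]

/-- A decreasing version of the regular diagonal. -/
theorem exists_antitone (hd : HasRegularGdeltaDiagonal X) :
    ∃ U : ℕ → Set (X × X), Antitone U ∧ (∀ m, IsOpen (U m)) ∧ (∀ m x, (x, x) ∈ U m) ∧
      ∀ p, (∀ m, p ∈ closure (U m)) → p.1 = p.2 := by
  obtain ⟨U, hU, hU'⟩ := hd
  refine ⟨fun m => ⋂ l ∈ Finset.range (m + 1), U l, ?_, ?_, ?_, ?_⟩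
  · intro a b hab
    apply Set.iInter₂_mono' 
    intro l hl
    exact ⟨l, Finset.mem_range.2 (by have := Finset.mem_range.1 hl; omega), subset_rfl⟩
  · intro m
    exact isOpen_biInter_finset fun l _ => (hU l).1
  · intro m x
    simp only [mem_iInter]
    intro l _
    exact (hU l).2 rfl
  · intro p hp
    have : p ∈ diagonal X := by
      rw [← hU', mem_iInter]
      intro m
      refine closure_mono ?_ (hp m)
      exact Set.iInter₂_subset m (Finset.mem_range.2 (Nat.lt_succ_self m))
    exact this

/-- A `k`-space with a regular diagonal is sequential. -/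
theorem sequentialSpace [T2Space X] (hk : IsKSpace X) (hd : HasRegularGdeltaDiagonal X) :
    SequentialSpace X := by
  obtain ⟨U, hanti, hopen, hdiag, hcl⟩ := exists_antitone hd
  refine ⟨fun S hS => hk S fun K hK => ?_⟩
  have hclosed : IsClosed (S ∩ K) := by
    rw [← closure_subset_iff_isClosed]
    intro p hp
    have hpK : p ∈ K := hK.isClosed.closure_subset_iff.2 inter_subset_right hp
    let W : ℕ → Set X := fun m => {y | (p, y) ∈ U m}
    have hWopen : ∀ m, IsOpen (W m) := fun m => (hopen m).preimage (by fun_prop)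
    have hWp : ∀ m, p ∈ W m := fun m => hdiag m p
    have hWanti : Antitone W := fun a b hab y hy => hanti hab hy
    have hex : ∀ m, ∃ s, s ∈ W m ∧ s ∈ S ∩ K := by
      intro m
      obtain ⟨s, hs1, hs2⟩ := mem_closure_iff.1 hp (W m) (hWopen m) (hWp m)
      exact ⟨s, hs1, hs2⟩
    choose s hs1 hs2 using hex
    have hlim : Tendsto s atTop (𝓝 p) := by
      rw [tendsto_nhds]
      intro O hO hpO
      have hempty : K ∩ ⋂ m, (closure (W m) ∩ Oᶜ) = ∅ := by
        rw [Set.eq_empty_iff_forall_notMem]
        rintro y ⟨_, hy⟩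
        rw [mem_iInter] at hy
        have h1 : ∀ m, (p, y) ∈ closure (U m) := by
          intro m
          have h2 : closure (W m) ⊆ (fun y => (p, y)) ⁻¹' closure (U m) :=
            closure_minimal (fun z hz => subset_closure hz) (isClosed_closure.preimage (by fun_prop))
          exact h2 (hy m).1
        have h3 : p = y := hcl (p, y) h1
        exact (hy 0).2 (h3 ▸ hpO)
      obtain ⟨m, hm⟩ := hK.elim_directed_family_closed (fun m => closure (W m) ∩ Oᶜ)
        (fun m => isClosed_closure.inter hO.isClosed_compl) hempty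
        (Antitone.directed_ge fun a b hab => inter_subset_inter_left _ (closure_mono (hWanti hab)))
      rw [mem_atTop_sets]
      refine ⟨m, fun l hl => ?_⟩
      by_contra hsl
      have : s l ∈ K ∩ (closure (W m) ∩ Oᶜ) :=
        ⟨(hs2 l).2, subset_closure (hWanti hl (hs1 l)), hsl⟩
      rw [hm] at this
      exact this
    exact ⟨hS (fun l => (hs2 l).1) hlim, hpK⟩
  have : ((↑) ⁻¹' S : Set K) = (↑) ⁻¹' (S ∩ K) := by
    ext z; simp
  rw [this]
  exact hclosed.preimage continuous_subtype_val

theorem exists_seq_of_not_locallyFinite [SequentialSpace X] (O : ℕ → Set X)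
    (h : ¬ LocallyFinite O) :
    ∃ φ : ℕ → ℕ, StrictMono φ ∧ ∃ (s : ℕ → X) (a : X), (∀ n, s n ∈ closure (O (φ n))) ∧
      Tendsto s atTop (𝓝 a) := by
  rw [LocallyFinite] at h
  push Not at h
  obtain ⟨z, hz⟩ := h
  by_cases hA : {n | z ∈ closure (O n)}.Infinite
  · obtain ⟨φ, hφ, hφ'⟩ := extraction_of_frequently_atTop (Nat.frequently_atTop_iff_infinite.2 hA)
    exact ⟨φ, hφ, fun _ => z, z, hφ', tendsto_const_nhds⟩
  · rw [Set.not_infinite] at hA
    obtain ⟨m, hm⟩ := hA.bddAbove
    have hm' : ∀ n, m < n → z ∉ closure (O n) := fun n hn hzn => absurd (hm hzn) (not_le.2 hn)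
    let S : Set X := {x | ∃ n, m < n ∧ x ∈ closure (O n)}
    have hzS : z ∉ S := by
      rintro ⟨n, hn, hzn⟩
      exact hm' n hn hzn
    have hzcl : z ∈ closure S := by
      rw [mem_closure_iff_nhds]
      intro t ht
      obtain ⟨n, hn, hmn⟩ := (hz t ht).exists_gt m
      obtain ⟨w, hw1, hw2⟩ := hn
      exact ⟨w, hw2, n, hmn, subset_closure hw1⟩
    have hnot : ¬ IsSeqClosed S := by
      intro hS
      exact hzS (hS.isClosed.closure_eq ▸ hzcl)
    rw [IsSeqClosed] at hnot
    push Not at hnot
    obtain ⟨s, a, hs, hlim, ha⟩ := hnot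
    choose j hj1 hj2 using hs
    have hjlim : Tendsto j atTop atTop := by
      rw [tendsto_atTop]
      intro N
      have h1 : ∀ n ∈ Finset.range N, ∀ᶠ l in atTop, j l ≠ n := by
        intro n _
        by_cases hn : m < n
        · have h2 : a ∉ closure (O n) := fun h => ha ⟨n, hn, h⟩
          have h3 := hlim.eventually (isClosed_closure.isOpen_compl.mem_nhds h2)
          filter_upwards [h3] with l hl hjl
          exact hl (hjl ▸ hj2 l)
        · exact Eventually.of_forall fun l hjl => hn (hjl ▸ hj1 l)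
      have h2 := (Finset.eventually_all (Finset.range N)).2 h1
      filter_upwards [h2] with l hl
      by_contra hlt
      exact hl (j l) (Finset.mem_range.2 (not_le.1 hlt)) rfl
    obtain ⟨ψ, hψ, hψ'⟩ := strictMono_subseq_of_tendsto_atTop hjlim
    exact ⟨j ∘ ψ, hψ', s ∘ ψ, a, fun n => hj2 _, hlim.comp hψ.tendsto_atTop⟩

end Pool.Agent.Work.MP_59a37c_gt
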