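import Mathlib
import Pool.Agent.Work.MP_59a37c_gt.Seq

set_option autoImplicit false

namespace Pool.Agent.Work.MP_59a37c_gt

open Filter Topology Set

universe u v

variable {X : Type u} [TopologicalSpace X]

/-- Urysohn type functions in a completely regular space. -/
theorem exists_urysohn [CompletelyRegularSpace X] (a : X) (C : Set X) (hC : IsClosed C)
    (ha : a ∉ C) : ∃ f : X → ℝ, Continuous f ∧ f a = 1 ∧ (∀ x ∈ C, f x = 0) ∧
      ∀ x, 0 ≤ f x ∧ f x ≤ 1 := by
  obtain ⟨f, hf, hfa, hfC⟩ := CompletelyRegularSpace.completely_regular a C hC ha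
  refine ⟨fun x => 1 - (f x : ℝ), by fun_prop, by simp [hfa], ?_, ?_⟩
  · intro x hx
    have := hfC hx
    simp only [this]
    simp
  · intro x
    exact ⟨by linarith [(f x).2.2], by linarith [(f x).2.1]⟩

/-- If the differences `x_j - y_j` tend to `0` and `y_j` tends to `a`, then `x_j` tends to `a`. -/
theorem tendsto_of_d [CompletelyRegularSpace X] (x y : ℕ → X) (a : X)
    (h : Tendsto (fun j => FA.d (x j) (y j)) atTop (𝓝 0)) (hy : Tendsto y atTop (𝓝 a)) :
    Tendsto x atTop (𝓝 a) := by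
  rw [tendsto_nhds]
  intro O hO haO
  obtain ⟨f, hf, hfa, hf0, _⟩ := exists_urysohn a Oᶜ hO.isClosed_compl (fun h => h haO)
  have h1 := FA.nhds_of_equicontinuous (X := X) (L := Unit) (fun _ => f) (by
    intro x₀ ε hε
    have := hf.continuousAt (x := x₀)
    rw [ContinuousAt, Metric.tendsto_nhds] at this
    filter_upwards [this ε hε] with x hx _
    exact hx) (1 / 2) (by norm_num)
  have h2 := h.eventually h1
  have h3 : ∀ᶠ j in atTop, dist (f (y j)) (f a) < 1 / 2 :=
    (Metric.tendsto_nhds.1 ((hf.tendsto a).comp hy)) (1 / 2) (by norm_num)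
  filter_upwards [h2, h3] with j hj1 hj2
  have hj1' := hj1 ()
  rw [FA.lift_d] at hj1'
  rw [Real.dist_eq, hfa] at hj2
  by_contra hxO
  rw [hf0 _ hxO] at hj1'
  rw [abs_lt] at hj1' hj2
  linarith [hj1'.1, hj2.1]

theorem tendsto_d (x y : ℕ → X) (a : X) (hx : Tendsto x atTop (𝓝 a))
    (hy : Tendsto y atTop (𝓝 a)) : Tendsto (fun j => FA.d (x j) (y j)) atTop (𝓝 0) := by
  have h1 : Tendsto (fun p : X × X => FA.d p.1 p.2) (𝓝 (a, a)) (𝓝 (FA.d a a)) :=
    (FA.continuous_d (X := X)).tendsto (a, a)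
  have h2 : FA.d a a = 0 := FA.d_self a
  rw [h2] at h1
  have h3 : Tendsto (fun j => (x j, y j)) atTop (𝓝 (a, a)) := hx.prodMk_nhds hy
  have h4 := Tendsto.comp h1 h3
  exact h4

theorem exists_subseq_const_or (j : ℕ → ℕ) :
    (∃ n, ∃ᶠ l in atTop, j l = n) ∨ Tendsto j atTop atTop := by
  by_cases h : ∃ n, ∃ᶠ l in atTop, j l = n
  · exact Or.inl h
  · right
    push Not at h
    rw [tendsto_atTop]
    intro N
    have h1 : ∀ n ∈ Finset.range N, ∀ᶠ l in atTop, j l ≠ n := fun n _ => h n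
    have h2 := (Finset.eventually_all (Finset.range N)).2 h1
    filter_upwards [h2] with l hl
    by_contra hlt
    exact hl (j l) (Finset.mem_range.2 (not_le.1 hlt)) rfl

/-- The main lemma: differences converging to zero have convergent subsequences. -/
theorem exists_convergent_subseq [T35Space X] [SequentialSpace X]
    (hd : HasRegularGdeltaDiagonal X) (x y : ℕ → X) (hxy : ∀ j, x j ≠ y j)
    (h : Tendsto (fun j => FA.d (x j) (y j)) atTop (𝓝 0)) :
    ∃ φ : ℕ → ℕ, StrictMono φ ∧ ∃ a, Tendsto (x ∘ φ) atTop (𝓝 a) := by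
  by_contra hcon
  push Not at hcon
  -- step (i)
  have hsep : ∀ z, ∃ m, ∃ W : Set X, IsOpen W ∧ z ∈ W ∧ ∀ j, m ≤ j → x j ∉ closure W := by
    intro z
    obtain ⟨m, hm⟩ : ∃ m, ∀ j, m ≤ j → x j ≠ z := by
      by_contra hc
      push Not at hc
      obtain ⟨φ, hφ, hφ'⟩ := extraction_of_frequently_atTop
        (frequently_atTop.2 fun a => let ⟨j, hj, hj'⟩ := hc a; ⟨j, hj, hj'⟩ :
          ∃ᶠ j in atTop, x j = z)
      apply hcon φ hφ z
      have : x ∘ φ = fun _ => z := funext hφ'
      rw [this]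
      exact tendsto_const_nhds
    let T : Set X := {t | ∃ j, m ≤ j ∧ x j = t}
    have hT : IsSeqClosed T := by
      intro t a ht hlim
      choose j hj1 hj2 using ht
      rcases exists_subseq_const_or j with ⟨n, hn⟩ | hj
      · obtain ⟨φ, hφ, hφ'⟩ := extraction_of_frequently_atTop hn
        have h1 : Tendsto (t ∘ φ) atTop (𝓝 a) := hlim.comp hφ.tendsto_atTop
        have h2 : t ∘ φ = fun _ => x n := by
          ext l
          simp only [Function.comp]
          rw [← hj2, hφ']
        rw [h2] at h1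
        have h3 : x n = a := tendsto_nhds_unique tendsto_const_nhds h1
        exact ⟨n, (hφ' 0) ▸ hj1 (φ 0), h3⟩
      · obtain ⟨ψ, hψ, hψ'⟩ := strictMono_subseq_of_tendsto_atTop hj
        exfalso
        apply hcon (j ∘ ψ) hψ' a
        have : x ∘ (j ∘ ψ) = t ∘ ψ := by
          ext l
          exact hj2 _
        rw [this]
        exact hlim.comp hψ.tendsto_atTop
    have hTz : Tᶜ ∈ 𝓝 z := by
      apply hT.isClosed.isOpen_compl.mem_nhds
      rintro ⟨j, hj, hjz⟩
      exact hm j hj hjz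
    obtain ⟨t, ht, htc, htT⟩ := exists_mem_nhds_isClosed_subset hTz
    refine ⟨m, interior t, isOpen_interior, mem_interior_iff_mem_nhds.2 ht, fun j hj hxj => ?_⟩
    have : x j ∈ t := htc.closure_subset_iff.2 interior_subset hxj
    exact htT this ⟨j, hj, rfl⟩
  -- step (ii)
  have hlf : ∃ σ : ℕ → ℕ, StrictMono σ ∧ ∃ O : ℕ → Set X, (∀ n, IsOpen (O n)) ∧
      (∀ n, x (σ n) ∈ O n) ∧ LocallyFinite O := by
    by_contra hno
    push Not at hno
    obtain ⟨U, hanti, hopen, hdiag, hcl⟩ := exists_antitone hd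
    have hO : ∀ j, ∃ O : Set X, IsOpen O ∧ x j ∈ O ∧ O ×ˢ O ⊆ U j := by
      intro j
      obtain ⟨u, v, hu, hv, hxu, hxv, huv⟩ := isOpen_prod_iff.1 (hopen j) (x j) (x j)
        (hdiag j (x j))
      exact ⟨u ∩ v, hu.inter hv, ⟨hxu, hxv⟩,
        (prod_mono inter_subset_left inter_subset_right).trans huv⟩
    choose O hO1 hO2 hO3 using hO
    obtain ⟨φ, hφ, s, z, hs, hsz⟩ := exists_seq_of_not_locallyFinite O
      (hno id strictMono_id O hO1 hO2)
    obtain ⟨m, W, hW, hzW, hWx⟩ := hsep z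
    have hσ : StrictMono (fun n => φ (n + m)) := fun a b hab => hφ (by omega)
    obtain ⟨ψ, hψ, t, w, ht, htw⟩ := exists_seq_of_not_locallyFinite
      (fun n => O (φ (n + m)) \ closure W)
      (hno (fun n => φ (n + m)) hσ _ (fun n => (hO1 _).sdiff isClosed_closure)
        (fun n => ⟨hO2 _, hWx _ ((Nat.le_add_left m n).trans (hφ.id_le _))⟩))
    have hwW : w ∉ W := by
      have h1 : ∀ n, t n ∈ Wᶜ := by
        intro n
        have h2 : closure (O (φ (ψ n + m)) \ closure W) ⊆ Wᶜ := by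
          apply closure_minimal _ hW.isClosed_compl
          rintro p ⟨_, hp⟩ hpW
          exact hp (subset_closure hpW)
        exact h2 (ht n)
      exact hW.isClosed_compl.mem_of_tendsto htw (Eventually.of_forall h1)
    have hzw : z = w := by
      apply hcl (z, w)
      intro k
      have h1 : Tendsto (fun n => (s (ψ n + m), t n)) atTop (𝓝 (z, w)) := by
        refine Tendsto.prodMk_nhds ?_ htw
        exact hsz.comp ((tendsto_add_atTop_nat m).comp hψ.tendsto_atTop)
      apply isClosed_closure.mem_of_tendsto h1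
      filter_upwards [eventually_ge_atTop k] with n hn
      have h2 : k ≤ φ (ψ n + m) :=
        (hn.trans (hψ.id_le n)).trans ((Nat.le_add_right _ _).trans (hφ.id_le _))
      have h3 : s (ψ n + m) ∈ closure (O (φ (ψ n + m))) := hs _
      have h4 : t n ∈ closure (O (φ (ψ n + m))) := closure_mono sdiff_subset (ht n)
      have h5 : (s (ψ n + m), t n) ∈ closure (O (φ (ψ n + m)) ×ˢ O (φ (ψ n + m))) := by
        rw [closure_prod_eq]
        exact ⟨h3, h4⟩
      exact closure_mono ((hO3 _).trans (hanti h2)) h5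
    exact hwW (hzw ▸ hzW)
  -- step (iii)
  obtain ⟨σ, hσ, O, hO, hxO, hlf⟩ := hlf
  have hg : ∀ n, ∃ f : X → ℝ, Continuous f ∧ f (x (σ n)) = 1 ∧
      (∀ z ∈ (O n)ᶜ ∪ {y (σ n)}, f z = 0) ∧ ∀ z, 0 ≤ f z ∧ f z ≤ 1 := by
    intro n
    apply exists_urysohn _ _ ((hO n).isClosed_compl.union isClosed_singleton)
    rintro (h1 | h1)
    · exact h1 (hxO n)
    · exact hxy _ h1
  choose f hf1 hf2 hf3 hf4 using hg
  have h1 := FA.nhds_of_equicontinuous (X := X) f (by
    intro x₀ ε hε
    obtain ⟨t, ht, hfin⟩ := hlf x₀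
    have h2 : ∀ n ∈ hfin.toFinset, ∀ᶠ z in 𝓝 x₀, |f n z - f n x₀| < ε := by
      intro n _
      have := (hf1 n).continuousAt (x := x₀)
      rw [ContinuousAt, Metric.tendsto_nhds] at this
      exact this ε hε
    have h3 := (Finset.eventually_all _).2 h2
    filter_upwards [h3, ht] with z hz hzt n
    by_cases hn : n ∈ hfin.toFinset
    · exact hz n hn
    · rw [Set.Finite.mem_toFinset, mem_ofPred_eq, Set.not_nonempty_iff_eq_empty] at hn
      have h4 : ∀ w ∈ t, f n w = 0 := by
        intro w hw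
        apply hf3 n w
        left
        intro hwO
        have : w ∈ O n ∩ t := ⟨hwO, hw⟩
        rw [hn] at this
        exact this
      rw [h4 z hzt, h4 x₀ (mem_of_mem_nhds ht)]
      simpa using hε) 1 one_pos
  have h2 := (h.comp hσ.tendsto_atTop).eventually h1
  obtain ⟨n, hn⟩ := h2.exists
  have h3 := hn n
  simp only [Function.comp] at h3
  rw [FA.lift_d, hf2, hf3 n (y (σ n)) (Or.inr rfl)] at h3
  norm_num at h3

end Pool.Agent.Work.MP_59a37c_gt
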