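import Mathlib
import Pool.Agent.Work.MP_59a37c_gt.Subseq

set_option autoImplicit false

namespace Pool.Agent.Work.MP_59a37c_gt

open Filter Topology Set

universe u v

variable {X : Type u} [TopologicalSpace X]

/-- A decreasing sequence of entourage-like sets that detects the convergence to zero of
differences. -/
structure Ent (X : Type u) [TopologicalSpace X] where
  /-- the sets -/
  E : ℕ → Set (X × X)
  anti : Antitone E
  mem : ∀ x y : ℕ → X, Tendsto (fun j => FA.d (x j) (y j)) atTop (𝓝 0) →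
    ∀ k, ∀ᶠ j in atTop, (x j, y j) ∈ E k
  small : ∀ U ∈ 𝓝 (0 : FA X), ∃ k, ∀ p ∈ E k, FA.d p.1 p.2 ∈ U

theorem Ent.refl (e : Ent X) (k : ℕ) (x : X) : (x, x) ∈ e.E k := by
  have h1 : Tendsto (fun _ : ℕ => FA.d x x) atTop (𝓝 0) := by
    have h2 : FA.d x x = 0 := FA.d_self x
    rw [h2]
    exact tendsto_const_nhds
  obtain ⟨j, hj⟩ := (e.mem (fun _ => x) (fun _ => x) h1 k).exists
  exact hj

theorem Ent.tendsto (e : Ent X) (x y : ℕ → X) (h : ∀ j, (x j, y j) ∈ e.E j) :
    Tendsto (fun j => FA.d (x j) (y j)) atTop (𝓝 0) := by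
  rw [tendsto_def]
  intro U hU
  obtain ⟨k, hk⟩ := e.small U hU
  filter_upwards [eventually_ge_atTop k] with j hj
  exact hk _ (e.anti hj (h j))

theorem Ent.tendsto' (e : Ent X) (x y : ℕ → X) (h : ∀ j, (y j, x j) ∈ e.E j) :
    Tendsto (fun j => FA.d (x j) (y j)) atTop (𝓝 0) := by
  have h1 := (e.tendsto y x h).neg
  rw [neg_zero] at h1
  have h2 : (fun j => FA.d (x j) (y j)) = fun j => -FA.d (y j) (x j) := by
    ext1 j
    rw [FA.d, FA.d, neg_sub]
  rw [h2]
  exact h1

/-- The main topological consequence: `X` is Fréchet–Urysohn. -/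
theorem Ent.frechet [CompletelyRegularSpace X] [SequentialSpace X] (e : Ent X) (S : Set X) (p : X)
    (hp : p ∈ closure S) : ∃ s : ℕ → X, (∀ n, s n ∈ S) ∧ Tendsto s atTop (𝓝 p) := by
  let S1 : Set X := {a | ∃ s : ℕ → X, (∀ n, s n ∈ S) ∧ Tendsto s atTop (𝓝 a)}
  have hS1 : IsSeqClosed S1 := by
    intro y b hy hlim
    choose s hs hsy using hy
    have hex : ∀ j, ∃ n, (s j n, y j) ∈ e.E j := by
      intro j
      have h1 := tendsto_d (s j) (fun _ => y j) (y j) (hsy j) tendsto_const_nhds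
      exact (e.mem (s j) (fun _ => y j) h1 j).exists
    choose n hn using hex
    refine ⟨fun j => s j (n j), fun j => hs _ _, ?_⟩
    exact tendsto_of_d _ y b (e.tendsto _ _ hn) hlim
  have hsub : S ⊆ S1 := fun a ha => ⟨fun _ => a, fun _ => ha, tendsto_const_nhds⟩
  exact closure_minimal hsub hS1.isClosed hp

theorem Ent.mem_nhds [CompletelyRegularSpace X] [SequentialSpace X] (e : Ent X) (k : ℕ) (p : X) :
    {y | (y, p) ∈ e.E k} ∈ 𝓝 p := by
  by_contra hcon
  have h1 : p ∈ closure {y | (y, p) ∈ e.E k}ᶜ := by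
    rw [closure_compl]
    intro h2
    exact hcon (mem_interior_iff_mem_nhds.1 h2)
  obtain ⟨s, hs, hlim⟩ := e.frechet _ p h1
  obtain ⟨j, hj⟩ := (e.mem s (fun _ => p) (tendsto_d s (fun _ => p) p hlim tendsto_const_nhds)
    k).exists
  exact hs j hj

theorem Ent.mem_nhds_prod [CompletelyRegularSpace X] [SequentialSpace X] (e : Ent X) (k : ℕ)
    (p : X) : e.E k ∈ 𝓝 (p, p) := by
  by_contra hcon
  have h1 : ∀ n, ∃ a b : X, (a, p) ∈ e.E n ∧ (b, p) ∈ e.E n ∧ (a, b) ∉ e.E k := by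
    intro n
    by_contra hno
    push Not at hno
    apply hcon
    filter_upwards [prod_mem_nhds (e.mem_nhds n p) (e.mem_nhds n p)] with q hq
    exact hno q.1 q.2 hq.1 hq.2
  choose a b ha hb hab using h1
  have h2 : Tendsto a atTop (𝓝 p) :=
    tendsto_of_d a (fun _ => p) p (e.tendsto a (fun _ => p) ha) tendsto_const_nhds
  have h3 : Tendsto b atTop (𝓝 p) :=
    tendsto_of_d b (fun _ => p) p (e.tendsto b (fun _ => p) hb) tendsto_const_nhds
  obtain ⟨j, hj⟩ := (e.mem a b (tendsto_d a b p h2 h3) k).exists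
  exact hab j hj

/-- The set of non-isolated points. -/
def nonIso (X : Type u) [TopologicalSpace X] : Set X := {p | ¬ IsOpen ({p} : Set X)}

theorem isClosed_nonIso : IsClosed (nonIso X) := by
  rw [← isOpen_compl_iff, isOpen_iff_mem_nhds]
  intro p hp
  have hp' : IsOpen ({p} : Set X) := not_not.1 hp
  filter_upwards [hp'.mem_nhds rfl] with q hq
  rw [mem_singleton_iff.1 hq]
  exact hp

theorem Ent.seqCompact [T35Space X] [SequentialSpace X] (hd : HasRegularGdeltaDiagonal X)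
    (e : Ent X) (s : ℕ → X) (hs : ∀ n, s n ∈ nonIso X) :
    ∃ φ : ℕ → ℕ, StrictMono φ ∧ ∃ a ∈ nonIso X, Tendsto (s ∘ φ) atTop (𝓝 a) := by
  have h1 : ∀ j, ∃ v, v ≠ s j ∧ (v, s j) ∈ e.E j := by
    intro j
    have h2 : s j ∈ closure ({s j} : Set X)ᶜ := by
      rw [closure_compl]
      intro h3
      apply hs j
      have h4 : interior ({s j} : Set X) = {s j} :=
        Subset.antisymm interior_subset (singleton_subset_iff.2 h3)
      rw [← h4]
      exact isOpen_interior
    obtain ⟨t, ht, hlim⟩ := e.frechet _ _ h2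
    obtain ⟨n, hn⟩ := (e.mem t (fun _ => s j) (tendsto_d t (fun _ => s j) _ hlim
      tendsto_const_nhds) j).exists
    exact ⟨t n, ht n, hn⟩
  choose v hv1 hv2 using h1
  have h3 := e.tendsto v s hv2
  obtain ⟨φ, hφ, a, ha⟩ := exists_convergent_subseq hd v s hv1 h3
  have h4 : Tendsto (s ∘ φ) atTop (𝓝 a) := by
    refine tendsto_of_d (s ∘ φ) (v ∘ φ) a ?_ ha
    have h5 := (e.tendsto' s v hv2).comp hφ.tendsto_atTop
    exact h5
  exact ⟨φ, hφ, a, isClosed_nonIso.mem_of_tendsto h4 (Eventually.of_forall fun n => hs _), h4⟩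

theorem Ent.totallyBounded [T35Space X] [SequentialSpace X] (hd : HasRegularGdeltaDiagonal X)
    (e : Ent X) (k : ℕ) : ∃ F : Finset X, ∀ z ∈ nonIso X, ∃ p ∈ F, (z, p) ∈ e.E k := by
  by_contra hcon
  push Not at hcon
  obtain ⟨f, hf1, hf2⟩ := exists_seq_of_forall_finset_exists (fun z => z ∈ nonIso X)
    (fun a b => (b, a) ∉ e.E k) (fun F _ => by
      obtain ⟨z, hz, hz'⟩ := hcon F
      exact ⟨z, hz, hz'⟩)
  obtain ⟨φ, hφ, a, _, ha⟩ := e.seqCompact hd f hf1
  have h1 : Tendsto (fun n => f (φ (n + 1))) atTop (𝓝 a) := ha.comp (tendsto_add_atTop_nat 1)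
  obtain ⟨n, hn⟩ := (e.mem _ _ (tendsto_d (fun n => f (φ (n + 1))) (fun n => f (φ n)) a h1 ha)
    k).exists
  exact hf2 (φ n) (φ (n + 1)) (hφ (Nat.lt_succ_self n)) hn

theorem Ent.isCompact_nonIso [T35Space X] [SequentialSpace X] (hd : HasRegularGdeltaDiagonal X)
    (e : Ent X) : IsCompact (nonIso X) := by
  choose F hF using e.totallyBounded hd
  apply isCompact_of_finite_subcover
  intro ι U hU hcov
  by_contra hno
  push Not at hno
  -- a countable subcover
  let Q : Set (ℕ × X) := {q | q.2 ∈ F q.1 ∧ ∃ i, ∀ z ∈ nonIso X, (z, q.2) ∈ e.E q.1 → z ∈ U i}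
  have hQc : Q.Countable := by
    have h1 : (⋃ k : ℕ, (fun p => (k, p)) '' (F k : Set X)).Countable :=
      countable_iUnion fun k => (F k).countable_toSet.image _
    apply h1.mono
    rintro ⟨k, p⟩ ⟨hp, _⟩
    exact mem_iUnion.2 ⟨k, p, hp, rfl⟩
  have hQcov : ∀ z ∈ nonIso X, ∃ q ∈ Q, (z, q.2) ∈ e.E q.1 := by
    intro z hz
    obtain ⟨i, hi⟩ := mem_iUnion.1 (hcov hz)
    have h1 : ∀ k, ∃ p ∈ F k, (z, p) ∈ e.E k := fun k => hF k z hz
    choose p hp1 hp2 using h1
    by_contra hcon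
    push Not at hcon
    have h2 : ∀ k, ∃ y, (y, p k) ∈ e.E k ∧ y ∉ U i := by
      intro k
      by_contra hk
      push Not at hk
      exact hcon (k, p k) ⟨hp1 k, i, fun w _ hw => hk w hw⟩ (hp2 k)
    choose y hy1 hy2 using h2
    have h3 : Tendsto p atTop (𝓝 z) :=
      tendsto_of_d p (fun _ => z) z (e.tendsto' p (fun _ => z) hp2) tendsto_const_nhds
    have h4 : Tendsto y atTop (𝓝 z) := tendsto_of_d y p z (e.tendsto y p hy1) h3
    obtain ⟨k, hk⟩ := (h4.eventually ((hU i).mem_nhds hi)).exists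
    exact hy2 k hk
  have hQi : ∀ q : Q, ∃ i, ∀ z ∈ nonIso X, (z, q.1.2) ∈ e.E q.1.1 → z ∈ U i := fun q => q.2.2
  choose c hc using hQi
  rcases isEmpty_or_nonempty Q with hQe | hQne
  · have hemp : nonIso X = ∅ := by
      rw [Set.eq_empty_iff_forall_notMem]
      intro z hz
      obtain ⟨q, hq, _⟩ := hQcov z hz
      exact hQe.elim ⟨q, hq⟩
    exact hno ∅ (by rw [hemp]; exact empty_subset _)
  · have := hQc.to_subtype
    obtain ⟨g, hg⟩ := exists_surjective_nat Q
    have hex : ∀ n : ℕ, ∃ x ∈ nonIso X, ∀ l < n, x ∉ U (c (g l)) := by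
      intro n
      classical
      have h1 := hno ((Finset.range n).image fun l => c (g l))
      obtain ⟨x, hx, hx'⟩ := Set.not_subset.1 h1
      refine ⟨x, hx, fun l hl hxl => hx' ?_⟩
      exact mem_iUnion₂.2 ⟨c (g l), Finset.mem_image.2 ⟨l, Finset.mem_range.2 hl, rfl⟩, hxl⟩
    choose x hx1 hx2 using hex
    obtain ⟨φ, hφ, a, haX, ha⟩ := e.seqCompact hd x hx1
    obtain ⟨q, hq, haq⟩ := hQcov a haX
    obtain ⟨l, hl⟩ := hg ⟨q, hq⟩
    have haU : a ∈ U (c (g l)) := by
      rw [hl]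
      exact hc ⟨q, hq⟩ a haX haq
    have h1 := ha.eventually ((hU _).mem_nhds haU)
    obtain ⟨n, hn1, hn2⟩ := (h1.and (eventually_gt_atTop l)).exists
    exact hx2 (φ n) l (hn2.trans_le (hφ.id_le n)) hn1

/-- Each entourage contains a ball of a continuous pseudometric. -/
theorem Ent.exists_pseudometric [T35Space X] [SequentialSpace X]
    (hd : HasRegularGdeltaDiagonal X) (e : Ent X) (k : ℕ) :
    ∃ ρ : X → X → ℝ, (∀ x, ρ x x = 0) ∧ (∀ x y, ρ x y = ρ y x) ∧
      (∀ x y z, ρ x z ≤ ρ x y + ρ y z) ∧ (∀ x₀ : X, ∀ ε > 0, ∀ᶠ x in 𝓝 x₀, ρ x x₀ < ε) ∧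
      ∀ x y, ρ x y < 1 → (x, y) ∈ e.E k := by
  classical
  have h1 : ∀ p : X, ∃ O : Set X, IsOpen O ∧ p ∈ O ∧ O ×ˢ O ⊆ e.E k := by
    intro p
    obtain ⟨W, hWE, hWo, hpW⟩ := mem_nhds_iff.1 (e.mem_nhds_prod k p)
    obtain ⟨u, v, hu, hv, hxu, hxv, huv⟩ := isOpen_prod_iff.1 hWo p p hpW
    exact ⟨u ∩ v, hu.inter hv, ⟨hxu, hxv⟩,
      ((prod_mono inter_subset_left inter_subset_right).trans huv).trans hWE⟩
  choose O hO1 hO2 hO3 using h1
  have h2 : ∀ p : X, ∃ f : X → ℝ, Continuous f ∧ f p = 1 ∧ (∀ x ∈ (O p)ᶜ, f x = 0) ∧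
      ∀ x, 0 ≤ f x ∧ f x ≤ 1 := fun p =>
    exists_urysohn p (O p)ᶜ (hO1 p).isClosed_compl (fun h => h (hO2 p))
  choose g hg1 hg2 hg3 hg4 using h2
  obtain ⟨t, ht⟩ := (e.isCompact_nonIso hd).elim_finite_subcover
    (fun p : X => {x | 1 / 2 < g p x}) (fun p => isOpen_lt continuous_const (hg1 p))
    (fun p _ => mem_iUnion.2 ⟨p, by simp only [mem_ofPred_eq, hg2]; norm_num⟩)
  let V : Set X := {x | ∃ p ∈ t, 1 / 2 < g p x}
  have hVo : IsOpen V := by
    have : V = ⋃ p ∈ t, {x | 1 / 2 < g p x} := by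
      ext x; simp [V]
    rw [this]
    exact isOpen_biUnion fun p _ => isOpen_lt continuous_const (hg1 p)
  have hVX : nonIso X ⊆ V := by
    intro x hx
    obtain ⟨p, hp, hpx⟩ := mem_iUnion₂.1 (ht hx)
    exact ⟨p, hp, hpx⟩
  let q : X → Option X := fun x => if x ∈ V then none else some x
  let ρ : X → X → ℝ := fun x y => (∑ p ∈ t, 4 * |g p x - g p y|) + (if q x = q y then 0 else 1)
  refine ⟨ρ, ?_, ?_, ?_, ?_, ?_⟩
  · intro x
    simp [ρ]
  · intro x y
    simp only [ρ]
    congr 1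
    · refine Finset.sum_congr rfl fun p _ => ?_
      rw [abs_sub_comm]
    · simp only [eq_comm]
  · intro x y z
    have h3 : ∑ p ∈ t, 4 * |g p x - g p z| ≤
        (∑ p ∈ t, 4 * |g p x - g p y|) + ∑ p ∈ t, 4 * |g p y - g p z| := by
      rw [← Finset.sum_add_distrib]
      refine Finset.sum_le_sum fun p _ => ?_
      have := abs_sub_le (g p x) (g p y) (g p z)
      linarith
    have h4 : (if q x = q z then (0 : ℝ) else 1) ≤
        (if q x = q y then 0 else 1) + (if q y = q z then 0 else 1) := by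
      by_cases hxy : q x = q y
      · by_cases hyz : q y = q z
        · rw [if_pos (hxy.trans hyz), if_pos hxy, if_pos hyz]; norm_num
        · rw [if_pos hxy, if_neg hyz, if_neg (hxy ▸ hyz)]; norm_num
      · rw [if_neg hxy]
        have h5 : (if q x = q z then (0 : ℝ) else 1) ≤ 1 := by split_ifs <;> norm_num
        have h6 : (0 : ℝ) ≤ if q y = q z then (0 : ℝ) else 1 := by split_ifs <;> norm_num
        linarith
    simp only [ρ]
    linarith
  · intro x₀ ε hε
    have h3 : ∀ᶠ x in 𝓝 x₀, q x = q x₀ := by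
      by_cases hx : x₀ ∈ V
      · filter_upwards [hVo.mem_nhds hx] with x hxV
        simp [q, hx, hxV]
      · have hiso : IsOpen ({x₀} : Set X) := by
          by_contra h
          exact hx (hVX h)
        filter_upwards [hiso.mem_nhds rfl] with x hx'
        rw [mem_singleton_iff.1 hx']
    have h4 : Tendsto (fun x => ∑ p ∈ t, 4 * |g p x - g p x₀|) (𝓝 x₀) (𝓝 0) := by
      have h5 : Continuous fun x => ∑ p ∈ t, 4 * |g p x - g p x₀| := by
        apply continuous_finsetSum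
        intro p _
        have := hg1 p
        fun_prop
      have h6 := h5.tendsto x₀
      simpa using h6
    filter_upwards [h3, h4.eventually (gt_mem_nhds hε)] with x hx1 hx2
    simp only [ρ, if_pos hx1, add_zero]
    exact hx2
  · intro x y hxy
    have hsum0 : 0 ≤ ∑ p ∈ t, 4 * |g p x - g p y| :=
      Finset.sum_nonneg fun p _ => by positivity
    have hq : q x = q y := by
      by_contra hne
      simp only [ρ, if_neg hne] at hxy
      linarith
    simp only [ρ, if_pos hq, add_zero] at hxy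
    by_cases hx : x ∈ V
    · have hy : y ∈ V := by
        by_contra hy
        simp [q, hx, hy] at hq
      obtain ⟨p, hp, hpx⟩ := hx
      have h3 : 4 * |g p x - g p y| < 1 :=
        (Finset.single_le_sum (f := fun p => 4 * |g p x - g p y|)
          (fun p _ => by positivity) hp).trans_lt hxy
      have h4 : 0 < g p y := by
        have := abs_lt.1 (show |g p x - g p y| < 1 / 4 by linarith)
        linarith [this.2]
      have hxO : x ∈ O p := by
        by_contra h
        have := hg3 p x h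
        linarith
      have hyO : y ∈ O p := by
        by_contra h
        have := hg3 p y h
        linarith
      exact hO3 p ⟨hxO, hyO⟩
    · have hy : y ∉ V := by
        intro hy
        simp [q, hx, hy] at hq
      have : x = y := by simpa [q, hx, hy] using hq
      rw [this]
      exact e.refl k y

/-- All levels are first countable. -/
theorem Ent.firstCountable [T35Space X] [SequentialSpace X]
    (hd : HasRegularGdeltaDiagonal X) (e : Ent X) (n : ℕ) :
    FirstCountableTopology (FA.Level X n) := by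
  refine ⟨fun g₀ => ?_⟩
  let N : ℕ → Set (FA.Level X n) := fun k => {g | (g : FA X) - g₀ ∈ FA.B n (e.E k)}
  have hN : ∀ k, N k ∈ 𝓝 g₀ := by
    intro k
    obtain ⟨ρ, h0, hs, ht, hc, hE⟩ := e.exists_pseudometric hd k
    obtain ⟨O, hO, hOB⟩ := FA.B_nhds n ρ h0 hs ht hc
    have h1 : Tendsto (fun g : FA.Level X n => (g : FA X) - g₀) (𝓝 g₀) (𝓝 0) := by
      have h2 : Continuous fun g : FA.Level X n => (g : FA X) - g₀ :=
        continuous_subtype_val.sub continuous_const
      have h3 := h2.tendsto g₀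
      have h4 : ((g₀ : FA X) - g₀) = 0 := sub_self _
      rw [h4] at h3
      exact h3
    filter_upwards [h1 hO] with g hg
    obtain ⟨m, hm, x, y, hxy, hsum⟩ := hOB _ hg ((FA.length_sub_le _ _).trans (by
      have := g.2
      have := g₀.2
      omega))
    exact ⟨m, hm, x, y, fun r => hE _ _ (hxy r), hsum⟩
  have hbasis : (𝓝 g₀).HasBasis (fun _ : ℕ => True) N := by
    refine ⟨fun U => ⟨fun hU => ?_, fun ⟨k, _, hk⟩ => mem_of_superset (hN k) hk⟩⟩
    obtain ⟨U', hU', hUU'⟩ := mem_nhds_induced Subtype.val g₀ U |>.1 hU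
    have h1 : {h : FA X | h + g₀ ∈ U'} ∈ 𝓝 (0 : FA X) := by
      have h2 : Tendsto (fun h : FA X => h + (g₀ : FA X)) (𝓝 0) (𝓝 (0 + (g₀ : FA X))) :=
        (continuous_id.add continuous_const).tendsto 0
      rw [zero_add] at h2
      exact h2 hU'
    obtain ⟨V, hV, hVB⟩ := FA.B_small n _ h1
    obtain ⟨k, hk⟩ := e.small V hV
    refine ⟨k, trivial, fun g hg => hUU' ?_⟩
    have h3 := hVB (e.E k) hk hg
    have h4 : (g : FA X) - g₀ + g₀ = g := sub_add_cancel _ _
    simp only [mem_ofPred_eq, h4] at h3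
    exact h3
  exact hbasis.isCountablyGenerated

/-- First countable spaces are snf-countable. -/
theorem SnfCountable.of_firstCountable (Y : Type u) [TopologicalSpace Y]
    [FirstCountableTopology Y] : SnfCountable Y := by
  intro y
  obtain ⟨b, hb⟩ := (𝓝 y).exists_antitone_basis
  refine ⟨range b, countable_range b, ?_, ?_, ?_⟩
  · rintro _ ⟨n, rfl⟩
    exact ⟨mem_of_mem_nhds (hb.mem n), fun s hs => hs (hb.mem n)⟩
  · intro U hU hy
    obtain ⟨n, _, hn⟩ := hb.toHasBasis.mem_iff.1 (hU.mem_nhds hy)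
    exact ⟨b n, ⟨n, rfl⟩, hn⟩
  · rintro _ ⟨n, rfl⟩ _ ⟨m, rfl⟩
    exact ⟨b (max n m), ⟨_, rfl⟩, subset_inter (hb.antitone (le_max_left _ _))
      (hb.antitone (le_max_right _ _))⟩

/-- snf-countability of `A_2(X)` gives the entourages. -/
theorem exists_ent {n : ℕ} (hn : 2 ≤ n) (h : SnfCountable (FA.Level X n)) : Nonempty (Ent X) := by
  have hlen0 : FA.length (0 : FA X) ≤ n := by
    have h0 : FA.length (0 : FA X) = 0 := rfl
    rw [h0]
    exact Nat.zero_le n
  obtain ⟨F, hFc, hF1, hF2, hF3⟩ := h ⟨0, hlen0⟩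
  obtain ⟨P0, hP0, _⟩ := hF2 univ isOpen_univ trivial
  obtain ⟨f, hf⟩ := hFc.exists_eq_range ⟨P0, hP0⟩
  have hfF : ∀ i, f i ∈ F := fun i => hf ▸ mem_range_self i
  let dl : X × X → FA.Level X n := fun p => ⟨FA.d p.1 p.2, (FA.length_d_le _ _).trans hn⟩
  refine ⟨⟨fun k => {p | ∀ i ≤ k, dl p ∈ f i}, ?_, ?_, ?_⟩⟩
  · intro a b hab p hp i hi
    exact hp i (hi.trans hab)
  · intro x y hxy k
    have h1 : Tendsto (fun j => dl (x j, y j)) atTop (𝓝 ⟨0, hlen0⟩) := by
      rw [tendsto_subtype_rng]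
      exact hxy
    have h2 : ∀ i ∈ Finset.range (k + 1), ∀ᶠ j in atTop, dl (x j, y j) ∈ f i := fun i _ =>
      (hF1 (f i) (hfF i)).2 _ h1
    have h3 := (Finset.eventually_all _).2 h2
    filter_upwards [h3] with j hj i hi
    exact hj i (Finset.mem_range.2 (by omega))
  · intro U hU
    obtain ⟨W, hWU, hWo, h0W⟩ := mem_nhds_iff.1 hU
    obtain ⟨P, hP, hPW⟩ := hF2 (Subtype.val ⁻¹' W) (hWo.preimage continuous_subtype_val) h0W
    rw [hf] at hP
    obtain ⟨k, rfl⟩ := hP
    exact ⟨k, fun p hp => hWU (hPW (hp k le_rfl))⟩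

/-- The main theorem. -/
theorem main [T35Space X] (hk : IsKSpace X) (hd : HasRegularGdeltaDiagonal X) {m : ℕ}
    (hm : 2 ≤ m) (h : SnfCountable (FA.Level X m)) (n : ℕ) :
    FirstCountableTopology (FA.Level X n) := by
  have := sequentialSpace hk hd
  obtain ⟨e⟩ := exists_ent hm h
  exact e.firstCountable hd n

end Pool.Agent.Work.MP_59a37c_gt
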